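import Pool.Agent.H906R2.Frenet.Mu
import Pool.Agent.H906R2.Frenet.Frame

set_option autoImplicit false

open Real

namespace Pool.Agent.Results.MP_f07be6_gt.FrameLength

open Pool.Agent.H906R2.Frenet

/-- Q2: for every `n ≥ 4`, the Frenet frame of every nondegenerate closed curve in `ℝⁿ` has length
greater than `2π μ(n)`. -/
theorem result : ∀ n : ℕ, 4 ≤ n → ∀ γ : ℝ → EuclideanSpace ℝ (Fin n),
    IsClosedCurve γ → Nondegenerate γ → 2 * π * mu n < frameLength γ := by
  intro n hn γ hγ hnd
  rw [mu_eq_one hn, Nat.cast_one, mul_one]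
  exact two_pi_lt_frameLength hγ hnd (by omega)

end Pool.Agent.Results.MP_f07be6_gt.FrameLength
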