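import Pool.Agent.H906R2.Frenet.Mu

set_option autoImplicit false

namespace Pool.Agent.Results.MP_f07be6_gt.MuEqOne

open Pool.Agent.H906R2.Frenet

/-- Q1: `μ(n) = 1` for every `n ≥ 4`; that is, already the once traversed unit circle has
nondegenerate closed curves of `ℝⁿ` in each of its `C^∞`-neighbourhoods. -/
theorem result : ∀ n : ℕ, 4 ≤ n →
    IsLeast {m : ℕ | 1 ≤ m ∧ Perturbable n m} 1 ∧ mu n = 1 :=
  fun _ hn => ⟨isLeast_one hn, mu_eq_one hn⟩

end Pool.Agent.Results.MP_f07be6_gt.MuEqOne
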